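import Pool.Agent.Y199.DM.Emb
import Pool.Agent.Y199.DM.Orb

/-!
# MP_b15c9e_ag: Dynamical Mordell-Lang for one-parameter families of orbits with preperiodic members

**Families.** Let `F_{t,0}, …, F_{t,N}` be forms of degree `d` in `N + 1` variables whose
coefficients are polynomials in `t` (`member F t`), let `x_0, …, x_N` be polynomials in `t`
(`start x t`). So `F_t` is a one-parameter family of rational self-maps of `ℙ^N` (for example of
endomorphisms, for example the constant family) and `x(t)` is a rational curve of starting points.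

**Étale preperiodic points.** A point `P` of the cone is called étale preperiodic for a system of
forms `F` if all iterates `F^n(P)` are different from zero, the point `[P]` of `ℙ^N` is preperiodic
and the determinant of the matrix of the partial derivatives of the `F_i` does not vanish at
`F^n(P)` for `n ≥ n₀` (that is, `[F]` is étale at the points of the cycle).

**Theorem.** Let `A` be a finite set of rational numbers such that `x(α)` is étale preperiodic for
`F_α` for all `α ∈ A`.

1. If `A` is not empty, and if `K ⊂ ℂ` is a field which contains the coefficients of all polynomials,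
   then the orbit of `x(t)` under `F_t` satisfies the Dynamical Mordell-Lang conjecture for
   all `t ∈ ℂ` which are transcendental over `K`.
2. If `A` has at least `2 δ + 1` elements then the orbit of `x(t)` under `F_t` satisfies the
   Dynamical Mordell-Lang conjecture for all but finitely many algebraic numbers `t` of
   degree at most `δ`. In particular (`δ = 1`) three elements suffice for all but finitely many
   rational numbers `t`.

The conclusion (`DMLAt`) is: all iterates of `x(t)` are defined (different from zero), and for every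
set `S` of polynomials in `N + 1` variables (for closed subsets of `ℙ^N`: a set of forms) the set
of the `n` such that all members of `S` vanish at the `n`-th iterate is a finite union of
arithmetic progressions.

The proof: if `t` is `p`-adically near to `α ∈ A` for an embedding of `ℂ` into the algebraic closure
of `ℚ_p`, for which all data have good reduction, then the orbit of `x(t)` has the reduction of the
orbit of `x(α)`, so it is étale at `p`, and `p`-adic interpolation applies. By the `S`-unit equation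
(for the values of the minimal polynomial of `t` at the elements of `A`, files of `Y152`) such an
embedding exists for all but finitely many `t` of degree at most `δ`.
-/

set_option autoImplicit false

open Polynomial Pool.Agent.H936R2 Pool.Agent.Y199.DM Pool.Agent.Y152.BD

namespace Pool.Agent.Results.MP_b15c9e_ag.CurvesThroughPreperiodicPoints

variable {N : ℕ}

/-- The member at `t` of a family of systems of forms. -/
noncomputable def member (F : Fin (N + 1) → MvPolynomial (Fin (N + 1)) ℂ[X]) (t : ℂ) :
    Fin (N + 1) → MvPolynomial (Fin (N + 1)) ℂ :=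
  fun i => MvPolynomial.map (evalRingHom t) (F i)

/-- The starting point at `t`. -/
noncomputable def start (x : Fin (N + 1) → ℂ[X]) (t : ℂ) : Fin (N + 1) → ℂ :=
  fun i => (x i).eval t

/-- `t` is algebraic of degree at most `δ`. -/
def DegreeAtMost (δ : ℕ) (t : ℂ) : Prop := ∃ P : ℤ[X], P ≠ 0 ∧ P.natDegree ≤ δ ∧ aeval t P = 0

theorem coeff_member (F : Fin (N + 1) → MvPolynomial (Fin (N + 1)) ℂ[X]) (t : ℂ)
    (i : Fin (N + 1)) (κ : Fin (N + 1) →₀ ℕ) :
    (member F t i).coeff κ = ((F i).coeff κ).eval t := by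
  rw [member, MvPolynomial.coeff_map]
  rfl

/-- The criterion for one parameter. -/
theorem near (F : Fin (N + 1) → MvPolynomial (Fin (N + 1)) ℂ[X]) {d : ℕ}
    (hF : ∀ i, (F i).IsHomogeneous d) (x : Fin (N + 1) → ℂ[X]) (α : ℚ)
    (hα : EtalePreperiodic (member F α) (start x α)) :
    ∃ s : Finset ℂ, (∀ K : Subfield ℂ, (∀ i κ k, ((F i).coeff κ).coeff k ∈ K) →
      (∀ i k, (x i).coeff k ∈ K) → (s : Set ℂ) ⊆ K) ∧
      ∀ (p : ℕ) [Fact p.Prime] (τ : ℂ →+* PadicAlgCl p), ¬ p ∣ α.den → (∀ y ∈ s, ‖τ y‖ ≤ 1) →
        ∀ t : ℂ, ‖τ t - α‖ < 1 → DMLAt (member F t) (start x t) := by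
  classical
  obtain ⟨s, n₀, hsK, hs⟩ := exists_units (member F α) (fun i => (hF i).map _) _ hα
  let s1 : Finset ℂ := Finset.univ.biUnion fun i => (F i).support.biUnion fun κ =>
    ((F i).coeff κ).support.image fun k => ((F i).coeff κ).coeff k
  let s2 : Finset ℂ := Finset.univ.biUnion fun i => (x i).support.image fun k => (x i).coeff k
  have hs1 : ∀ i κ k, ((F i).coeff κ).coeff k ≠ 0 → ((F i).coeff κ).coeff k ∈ s1 := by
    intro i κ k h
    have h1 : (F i).coeff κ ≠ 0 := fun h0 => h (by rw [h0, coeff_zero])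
    simp only [s1, Finset.mem_biUnion, Finset.mem_image, Finset.mem_univ, true_and]
    exact ⟨i, κ, MvPolynomial.mem_support_iff.2 h1, k, mem_support_iff.2 h, rfl⟩
  have hs2 : ∀ i k, (x i).coeff k ≠ 0 → (x i).coeff k ∈ s2 := by
    intro i k h
    simp only [s2, Finset.mem_biUnion, Finset.mem_image, Finset.mem_univ, true_and]
    exact ⟨i, k, mem_support_iff.2 h, rfl⟩
  have hs1K : ∀ y ∈ s1, ∃ i κ k, y = ((F i).coeff κ).coeff k := by
    intro y hy
    simp only [s1, Finset.mem_biUnion, Finset.mem_image, Finset.mem_univ, true_and] at hy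
    obtain ⟨i, κ, -, k, -, rfl⟩ := hy
    exact ⟨i, κ, k, rfl⟩
  have hs2K : ∀ y ∈ s2, ∃ i k, y = (x i).coeff k := by
    intro y hy
    simp only [s2, Finset.mem_biUnion, Finset.mem_image, Finset.mem_univ, true_and] at hy
    obtain ⟨i, k, -, rfl⟩ := hy
    exact ⟨i, k, rfl⟩
  refine ⟨s ∪ s1 ∪ s2, fun K hFK hxK y hy => ?_, fun p hp τ hden hτ t ht => ?_⟩
  · have hαK : (α : ℂ) ∈ K := SubfieldClass.ratCast_mem K α
    have hevK : ∀ q : ℂ[X], (∀ k, q.coeff k ∈ K) → q.eval (α : ℂ) ∈ K := by
      intro q hq
      rw [eval_eq_sum_range]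
      exact K.sum_mem fun k _ => K.mul_mem (hq k) (K.pow_mem hαK k)
    rcases Finset.mem_union.1 (Finset.mem_coe.1 hy) with h | h
    · rcases Finset.mem_union.1 h with h | h
      · refine hsK K (fun i κ => ?_) (fun i => hevK _ (hxK i)) h
        rw [coeff_member]
        exact hevK _ (hFK i κ)
      · obtain ⟨i, κ, k, rfl⟩ := hs1K y h
        exact hFK i κ k
    · obtain ⟨i, k, rfl⟩ := hs2K y h
      exact hxK i k
  · have hτ0 : ∀ y ∈ s, ‖τ y‖ ≤ 1 := fun y hy => hτ y (by simp [hy])
    have hτ1 : ∀ i κ k, ‖τ (((F i).coeff κ).coeff k)‖ ≤ 1 := by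
      intro i κ k
      by_cases h : ((F i).coeff κ).coeff k = 0
      · rw [h, map_zero, norm_zero]
        exact zero_le_one
      · exact hτ _ (by simp [hs1 i κ k h])
    have hτ2 : ∀ i k, ‖τ ((x i).coeff k)‖ ≤ 1 := by
      intro i k
      by_cases h : (x i).coeff k = 0
      · rw [h, map_zero, norm_zero]
        exact zero_le_one
      · exact hτ _ (by simp [hs2 i k h])
    have hαn : ‖τ (α : ℂ)‖ ≤ 1 := by
      rw [map_ratCast]
      have := Pool.Agent.TH838.PR.norm_rat_le_one (p := p) α hden
      rwa [eq_ratCast] at this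
    have htα : ‖τ t - τ (α : ℂ)‖ < 1 := by
      rw [map_ratCast]
      exact ht
    have htn : ‖τ t‖ ≤ 1 := by
      have h1 : τ t = (τ t - τ (α : ℂ)) + τ (α : ℂ) := by ring
      rw [h1]
      exact (IsUltrametricDist.norm_add_le_max _ _).trans (max_le htα.le hαn)
    have hev := fun (q : ℂ[X]) (hq : ∀ k, ‖τ (q.coeff k)‖ ≤ 1) =>
      eval_near τ q hq t (α : ℂ) htn hαn htα
    have hevα := fun (q : ℂ[X]) (hq : ∀ k, ‖τ (q.coeff k)‖ ≤ 1) =>
      (eval_near τ q hq (α : ℂ) (α : ℂ) hαn hαn (by rw [sub_self, norm_zero]; exact one_pos)).1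
    obtain ⟨hdet, hne⟩ := hs p τ hτ0
    refine orbit_core τ (member F t) (member F α) (start x t) (start x α) (fun i κ => ?_)
      (fun i κ => ?_) (fun i κ => ?_) (fun i => (hev _ (hτ2 i)).1) (fun i => hevα _ (hτ2 i))
      (fun i => (hev _ (hτ2 i)).2) n₀ hdet hne
    · rw [coeff_member]
      exact (hev _ (hτ1 i κ)).1
    · rw [coeff_member]
      exact hevα _ (hτ1 i κ)
    · rw [coeff_member, coeff_member]
      exact (hev _ (hτ1 i κ)).2

/-- **Dynamical Mordell-Lang for one-parameter families of orbits with preperiodic members.** -/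
theorem result {d : ℕ} (F : Fin (N + 1) → MvPolynomial (Fin (N + 1)) ℂ[X])
    (hF : ∀ i, (F i).IsHomogeneous d) (x : Fin (N + 1) → ℂ[X]) (A : Finset ℚ)
    (hA : ∀ α ∈ A, EtalePreperiodic (member F α) (start x α)) :
    (A.Nonempty → ∀ K : Subfield ℂ, (∀ i κ k, ((F i).coeff κ).coeff k ∈ K) →
      (∀ i k, (x i).coeff k ∈ K) → ∀ t : ℂ, Transcendental K t →
        DMLAt (member F t) (start x t)) ∧
    ∀ δ : ℕ, 2 * δ + 1 ≤ A.card →
      {t : ℂ | DegreeAtMost δ t ∧ ¬ DMLAt (member F t) (start x t)}.Finite := by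
  classical
  constructor
  · rintro ⟨α, hα⟩ K hFK hxK t ht
    obtain ⟨s, hsK, hs⟩ := near F hF x α (hA α hα)
    obtain ⟨D, hD⟩ := emb_transc K s (hsK K hFK hxK) t ht α
    obtain ⟨p, hpD, hp⟩ := Nat.exists_infinite_primes (D + α.den + 1)
    haveI : Fact p.Prime := ⟨hp⟩
    obtain ⟨τ, hτ, hτt⟩ := hD p (by omega)
    refine hs p τ (fun hdvd => ?_) hτ t hτt
    have := Nat.le_of_dvd α.den_pos hdvd
    omega
  · intro δ hδ
    let e : Fin A.card → ℚ := fun l => A.orderEmbOfFin rfl l
    have he : Function.Injective e := (A.orderEmbOfFin rfl).injective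
    have heA : ∀ l, e l ∈ A := fun l => A.orderEmbOfFin_mem rfl l
    choose s hsK hs using fun l => near F hF x (e l) (hA _ (heA l))
    choose D hD using fun l => emb_alg (s l)
    let D' : ℕ := ∑ l, (D l + (e l).den)
    refine (finite_badD D' δ (M := A.card) (L := 1) (by omega) e he).subset ?_
    rintro t ⟨htδ, hbad⟩
    refine ⟨htδ, ?_⟩
    rintro ⟨f, -, G, hG, hGt, hp⟩
    obtain ⟨p, hp, hpD, hdvd⟩ := hp 0
    apply hbad
    haveI : Fact p.Prime := ⟨hp⟩
    have hle : D (f 0) + (e (f 0)).den ≤ D' :=
      Finset.single_le_sum (f := fun l => D l + (e l).den) (fun _ _ => Nat.zero_le _)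
        (Finset.mem_univ (f 0))
    have hden : ¬ p ∣ (e (f 0)).den := by
      intro h
      have := Nat.le_of_dvd (e (f 0)).den_pos h
      omega
    obtain ⟨τ, hτ, hτt⟩ := hD (f 0) p (by omega) t G hG hGt (e (f 0)) hden hdvd
    exact hs (f 0) p τ hden hτ t hτt

end Pool.Agent.Results.MP_b15c9e_ag.CurvesThroughPreperiodicPoints
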