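import Pool.Agent.Y199.SG.Ell

/-!
# MP_b15c9e_ag: Dynamical Mordell-Lang for all but finitely many points of an elliptic curve through an
étale preperiodic point

**The curve.** Let `a, b` be algebraic numbers with `4 a³ + 27 b² ≠ 0` and let `Curve a b` be the
elliptic curve `y² = x³ + a x + b` in the coordinates `t = (t₀, t₁) = (x / y, 1 / y)`, in which the
equation is `t₁ = t₀³ + a t₀ t₁² + b t₁³` and the origin of the group is the point `t = 0`. These
coordinates exist at all points of the elliptic curve except for the three points with `y = 0`.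

**Families.** Let `F_{t,0}, …, F_{t,N}` be forms of degree `d` in `N + 1` variables whose coefficients
are complex polynomials in `t = (t₀, t₁)` (`member F t`), let `x_0, …, x_N` be complex polynomials in
`t` (`start x t`). So `F_t` is a family of rational self-maps of `ℙ^N` over the elliptic curve (for
example of endomorphisms, for example a constant family) and `x(t)` is a rational map of the elliptic
curve to `ℙ^N`, for example the embedding of a curve of genus one. Every rational map of the elliptic
curve to a projective space is of this form: its functions are quotients of polynomials in `t`, and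
the denominators and the common zeros can be moved away from the origin.

**Étale preperiodic points.** A point `P` of the cone is called étale preperiodic for a system of
forms `F` if all iterates `F^n(P)` are different from zero, the point `[P]` of `ℙ^N` is preperiodic
and the determinant of the matrix of the partial derivatives of the `F_i` does not vanish at
`F^n(P)` for `n ≥ n₀` (that is, `[F]` is étale at the points of the cycle).

**Theorem.** If `x(0)` is étale preperiodic for `F_0` then for every number field `E` in `ℂ` and for
all but finitely many of the points `t` of the elliptic curve over `E` the orbit of `x(t)` under `F_t`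
is defined (no iterate is zero), and for every set `S` of polynomials in `N + 1` variables (for closed
subsets of `ℙ^N`: a set of forms) the set of the `n` such that all members of `S` vanish at the
`n`-th iterate is a finite union of arithmetic progressions (`DMLAt`).

So let `F` be an endomorphism of `ℙ^N` and let `C` be a curve of geometric genus one over the algebraic
numbers in `ℙ^N` through an étale preperiodic point of `F` (the origin is a point above it; nothing is
supposed about the orbit of the curve `C`). Then the conjecture holds for `F`, for all subvarieties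
and for all but finitely many of the starting points in `C(E)`, for all number fields `E`. A point
suffices, while the sister results for rational curves (`NumberFieldPoints`) need three étale
preperiodic points on the curve, and curves of genus at least two have finitely many points over `E`.
The case of an elliptic curve is that in which the starting points over `E` are infinitely many
and sparse: their heights grow as the squares of the coordinates in the Mordell-Weil group.

The proof: if `t` is near to `0` at a place of a number field with a large residue characteristic `p`,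
then there is an embedding of `ℂ` into the algebraic closure of `ℚ_p` for which all data have good
reduction and `t` is near to `0`; so the orbit of `x(t)` has the reduction of the orbit of `x(0)`, it
is étale at `p`, and `p`-adic interpolation applies. For the other `t` the number `x(t) = t₀ / t₁`
is integral outside finitely many primes, and there are finitely many such points by Siegel's
theorem, which is proved here for all number fields (from the finiteness of the solutions of the
`S`-unit equation, the finiteness of the class number and the unit theorem).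
-/

set_option autoImplicit false

open Pool.Agent.H936R2 Pool.Agent.Y199.DM Pool.Agent.Y199.SG

namespace Pool.Agent.Results.MP_b15c9e_ag.EllipticCurves

variable {N : ℕ}

/-- The member at `t` of a family of systems of forms. -/
noncomputable def member
    (F : Fin (N + 1) → MvPolynomial (Fin (N + 1)) (MvPolynomial (Fin 2) ℂ)) (t : Fin 2 → ℂ) :
    Fin (N + 1) → MvPolynomial (Fin (N + 1)) ℂ :=
  fun i => MvPolynomial.map (MvPolynomial.eval t) (F i)

/-- The starting point at `t`. -/
noncomputable def start (x : Fin (N + 1) → MvPolynomial (Fin 2) ℂ) (t : Fin 2 → ℂ) :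
    Fin (N + 1) → ℂ :=
  fun i => MvPolynomial.eval t (x i)

/-- The elliptic curve `y² = x³ + a x + b` in the coordinates `t = (x / y, 1 / y)`. -/
def Curve (a b : ℂ) : Set (Fin 2 → ℂ) :=
  {t | t 1 = t 0 ^ 3 + a * t 0 * t 1 ^ 2 + b * t 1 ^ 3}

/-- A point of the curve with `‖w‖ < 1` has `‖u‖ < 1`. -/
theorem near_zero {K : Type*} [NormedField K] [IsUltrametricDist K] (u w a b : K)
    (ha : ‖a‖ ≤ 1) (hb : ‖b‖ ≤ 1) (h : w = u ^ 3 + a * u * w ^ 2 + b * w ^ 3) (hw : ‖w‖ < 1) :
    ‖u‖ < 1 := by
  by_contra hu
  push Not at hu
  have h1 : u ^ 3 = w - a * u * w ^ 2 - b * w ^ 3 := by linear_combination -h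
  have h2 : ‖u ^ 3‖ ≤ ‖u‖ * ‖w‖ := by
    rw [h1]
    have hw2 : ‖w‖ ^ 2 ≤ ‖w‖ := by
      rw [sq]
      exact mul_le_of_le_one_left (norm_nonneg _) hw.le
    have hw3 : ‖w‖ ^ 3 ≤ ‖w‖ := by
      calc ‖w‖ ^ 3 = ‖w‖ ^ 2 * ‖w‖ := by ring
        _ ≤ 1 * ‖w‖ := mul_le_mul_of_nonneg_right (hw2.trans hw.le) (norm_nonneg _)
        _ = ‖w‖ := one_mul _
    have hA : ‖w‖ ≤ ‖u‖ * ‖w‖ := le_mul_of_one_le_left (norm_nonneg _) hu
    have hB : ‖a * u * w ^ 2‖ ≤ ‖u‖ * ‖w‖ := by
      rw [norm_mul, norm_mul, norm_pow]
      calc ‖a‖ * ‖u‖ * ‖w‖ ^ 2 ≤ 1 * ‖u‖ * ‖w‖ :=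
            mul_le_mul (mul_le_mul_of_nonneg_right ha (norm_nonneg _)) hw2 (by positivity)
              (by positivity)
        _ = ‖u‖ * ‖w‖ := by ring
    have hC : ‖b * w ^ 3‖ ≤ ‖u‖ * ‖w‖ := by
      rw [norm_mul, norm_pow]
      calc ‖b‖ * ‖w‖ ^ 3 ≤ 1 * ‖w‖ := mul_le_mul hb hw3 (by positivity) (by positivity)
        _ = ‖w‖ := one_mul _
        _ ≤ ‖u‖ * ‖w‖ := hA
    rw [sub_eq_add_neg, sub_eq_add_neg]
    refine (IsUltrametricDist.norm_add_le_max _ _).trans
      (max_le ((IsUltrametricDist.norm_add_le_max _ _).trans (max_le hA ?_)) ?_)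
    · rw [norm_neg]
      exact hB
    · rw [norm_neg]
      exact hC
  have h3 : ‖u‖ * ‖w‖ < ‖u‖ := by
    have h4 : 0 < ‖u‖ := lt_of_lt_of_le one_pos hu
    calc ‖u‖ * ‖w‖ < ‖u‖ * 1 := mul_lt_mul_of_pos_left hw h4
      _ = ‖u‖ := mul_one _
  have h4 : ‖u‖ ≤ ‖u ^ 3‖ := by
    rw [norm_pow]
    exact le_self_pow₀ hu (by norm_num)
  exact absurd (h4.trans h2) (not_le.2 h3)

/-- **Dynamical Mordell-Lang for all but finitely many points of an elliptic curve through an étale
preperiodic point.** -/
theorem result {d : ℕ} (F : Fin (N + 1) → MvPolynomial (Fin (N + 1)) (MvPolynomial (Fin 2) ℂ))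
    (hF : ∀ i, (F i).IsHomogeneous d) (x : Fin (N + 1) → MvPolynomial (Fin 2) ℂ) (a b : ℂ)
    (ha : IsAlgebraic ℚ a) (hb : IsAlgebraic ℚ b) (hab : 4 * a ^ 3 + 27 * b ^ 2 ≠ 0)
    (h : EtalePreperiodic (member F 0) (start x 0)) (E : IntermediateField ℚ ℂ)
    [FiniteDimensional ℚ E] :
    {t : Fin 2 → ℂ | t ∈ Curve a b ∧ (∀ i, t i ∈ E) ∧ ¬ DMLAt (member F t) (start x t)}.Finite := by
  classical
  obtain ⟨s, hs⟩ := near_core2 (d := d) (member F) (start x) (fun i κ => (F i).coeff κ) x
    (fun t i κ => by
      rw [member, MvPolynomial.coeff_map]) (fun t i => rfl) (by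
      refine (Finset.finite_toSet (Finset.univ.biUnion fun i : Fin (N + 1) =>
        (F i).support.image fun κ => (i, κ))).subset ?_
      rintro ⟨i, κ⟩ hq
      rw [Finset.mem_coe, Finset.mem_biUnion]
      exact ⟨i, Finset.mem_univ _, Finset.mem_image.2
        ⟨κ, MvPolynomial.mem_support_iff.2 hq, rfl⟩⟩)
    (fun t i => (hF i).map _) 0 h
  refine (near_elliptic a b ha hb hab E (s ∪ {a, b})).subset ?_
  rintro t ⟨htc, htE, hbad⟩
  refine ⟨htc, htE, fun hn => hbad ?_⟩
  obtain ⟨p, hp, τ, hτ, hlt⟩ := hn
  rw [sub_zero] at hlt
  have hcurve : t 1 = t 0 ^ 3 + a * t 0 * t 1 ^ 2 + b * t 1 ^ 3 := htc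
  have hu : ‖τ (t 0)‖ < 1 := by
    refine near_zero (τ (t 0)) (τ (t 1)) (τ a) (τ b) (hτ a (by simp)) (hτ b (by simp)) ?_ hlt
    have h1 := congrArg τ hcurve
    simpa only [map_add, map_mul, map_pow] using h1
  have hall : ∀ i, ‖τ (t i)‖ < 1 := by
    intro i
    fin_cases i
    · exact hu
    · exact hlt
  refine hs p τ (fun y hy => hτ y (by simp [hy])) t (fun i => (hall i).le) fun i => ?_
  rw [Pi.zero_apply, map_zero, sub_zero]
  exact hall i

end Pool.Agent.Results.MP_b15c9e_ag.EllipticCurves
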