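import Pool.Agent.Y199.DM.NfT

/-!
# MP_b15c9e_ag: Dynamical Mordell-Lang for all but finitely many members of a family over a number
field

**Families.** Let `F_{t,0}, …, F_{t,N}` be forms of degree `d` in `N + 1` variables whose
coefficients are complex polynomials in `t` (`member F t`), let `x_0, …, x_N` be complex polynomials
in `t` (`start x t`). So `F_t` is a one-parameter family of rational self-maps of `ℙ^N` (for example
of endomorphisms, for example a constant family) and `x(t)` is a curve of starting points.

**Étale preperiodic points.** A point `P` of the cone is called étale preperiodic for a system of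
forms `F` if all iterates `F^n(P)` are different from zero, the point `[P]` of `ℙ^N` is preperiodic
and the determinant of the matrix of the partial derivatives of the `F_i` does not vanish at
`F^n(P)` for `n ≥ n₀` (that is, `[F]` is étale at the points of the cycle).

**Theorem.** Let `E` be a number field in `ℂ`, let `m ≥ 1` and let `b_1, b_2, b_3` be three different
points of the projective line over the algebraic numbers. Then for all but finitely many `t` in `E`
with the property (`*`) the orbit of `x(t)` under `F_t` is defined (no iterate is zero), and for every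
set `S` of polynomials in `N + 1` variables (for closed subsets of `ℙ^N`: a set of forms) the set of
the `n` such that all members of `S` vanish at the `n`-th iterate is a finite union of arithmetic
progressions (`DMLAt`).

(`*`) For `i = 1, 2, 3`: `t` is integral with respect to `b_i` outside `m` (that is, `m^k / (t - b_i)`,
or `m^k t` if `b_i` is the point at infinity, is an algebraic integer for some `k`), or `b_i` is finite
and `x(σ(b_i))` is étale preperiodic for `F_{σ(b_i)}` for some automorphism `σ` of `ℂ` over `E`.

So the conjecture holds

* for all but finitely many `t` in `E` if `x(α)` is étale preperiodic for one number `α` of degree at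
  least `3` over `E`, or for three algebraic numbers `α`, of arbitrary degrees. For example, if a
  rational curve `x(t)` contains three points `x(α_i)`, `α_i` algebraic, which are étale preperiodic
  for an endomorphism `F` of `ℙ^N`, then for all number fields `E` and all but finitely many of the
  points `x(t)`, `t` in `E`;
* for all but finitely many algebraic integers `t` in `E`, more generally of the elements of
  `O_E[1/m]`, if `x(α)` is étale preperiodic for one `α` of degree at least `2` over `E` or for two
  numbers `α`;
* for all but finitely many units `t` of `O_E[1/m]` (so for all but finitely many elements of a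
  finitely generated multiplicative group of algebraic numbers) if `x(α)` is étale preperiodic for
  one algebraic number `α ≠ 0`.

The sister result `CurvesThroughPreperiodicPoints` concerns all `t` of degree at most `δ` together
but supposes that `x(α)` is étale preperiodic for `2 δ + 1` *rational* numbers `α`;
`OnePreperiodicMember` supposes one `α` only but has infinitely many exceptions in general.

The proof: if `t` is near to `b_i` at a place of the number field generated by `E` and the `b_i`,
with a large residue characteristic `p`, then there is an embedding of `ℂ` into the algebraic closure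
of `ℚ_p` for which all data have good reduction and `t` is near to `σ(b_i)`; so the orbit of
`x(t)` has the reduction of the orbit of `x(σ(b_i))`, it is étale at `p`, and `p`-adic interpolation
applies. For the other `t` the quotients `(t - b_i) / (t - b_3)` are `S`-units, and the unit
equation has finitely many solutions.
-/

set_option autoImplicit false

open Polynomial Pool.Agent.H936R2 Pool.Agent.Y199.DM

namespace Pool.Agent.Results.MP_b15c9e_ag.NumberFieldPoints

variable {N : ℕ}

/-- The member at `t` of a family of systems of forms. -/
noncomputable def member (F : Fin (N + 1) → MvPolynomial (Fin (N + 1)) ℂ[X]) (t : ℂ) :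
    Fin (N + 1) → MvPolynomial (Fin (N + 1)) ℂ :=
  fun i => MvPolynomial.map (evalRingHom t) (F i)

/-- The starting point at `t`. -/
noncomputable def start (x : Fin (N + 1) → ℂ[X]) (t : ℂ) : Fin (N + 1) → ℂ :=
  fun i => (x i).eval t

/-- The algebraic numbers `β` such that for some conjugate `σ(β)` over `E` the point `x(σ(β))` is étale
preperiodic for `F_{σ(β)}`. -/
def Good (F : Fin (N + 1) → MvPolynomial (Fin (N + 1)) ℂ[X]) (x : Fin (N + 1) → ℂ[X])
    (E : IntermediateField ℚ ℂ) : Set ℂ :=
  {β | IsAlgebraic ℚ β ∧ ∃ σ : ℂ ≃ₐ[E] ℂ, EtalePreperiodic (member F (σ β)) (start x (σ β))}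

/-- `t` is integral outside `m` with respect to the point `b` of the projective line (`none` is the
point at infinity). -/
def IntegralAt (m : ℕ) : Option ℂ → ℂ → Prop
  | none, t => ∃ k : ℕ, IsIntegral ℤ ((m : ℂ) ^ k * t)
  | some z, t => ∃ k : ℕ, IsIntegral ℤ ((m : ℂ) ^ k * (t - z)⁻¹)

/-- The criterion for one parameter. -/
theorem near_good {d : ℕ} (F : Fin (N + 1) → MvPolynomial (Fin (N + 1)) ℂ[X])
    (hF : ∀ i, (F i).IsHomogeneous d) (x : Fin (N + 1) → ℂ[X]) (α : ℂ)
    (h : EtalePreperiodic (member F α) (start x α)) :
    ∃ s : Finset ℂ, ∀ t, Near s α t → DMLAt (member F t) (start x t) := by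
  classical
  obtain ⟨s, hs⟩ := near_core (d := d) (member F) (start x) (fun i κ => (F i).coeff κ) x
    (fun t i κ => by
      rw [member, MvPolynomial.coeff_map]
      rfl) (fun t i => rfl) (by
      refine (Finset.finite_toSet (Finset.univ.biUnion fun i : Fin (N + 1) =>
        (F i).support.image fun κ => (i, κ))).subset ?_
      rintro ⟨i, κ⟩ hq
      rw [Finset.mem_coe, Finset.mem_biUnion]
      exact ⟨i, Finset.mem_univ _, Finset.mem_image.2
        ⟨κ, MvPolynomial.mem_support_iff.2 hq, rfl⟩⟩)
    (fun t i => (hF i).map _) α h
  refine ⟨s ∪ {α}, fun t ht => ?_⟩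
  obtain ⟨p, hp, τ, hτ, hlt⟩ := ht
  have hα : ‖τ α‖ ≤ 1 := hτ α (by simp)
  have h1 : ‖τ t - τ α‖ < 1 := by
    rw [← map_sub]
    exact hlt
  refine hs p τ (fun y hy => hτ y (by simp [hy])) t ?_ ?_
  · have h2 : τ t = (τ t - τ α) + τ α := by ring
    rw [h2]
    exact (IsUltrametricDist.norm_add_le_max _ _).trans (max_le h1.le hα)
  · rw [norm_sub_rev]
    exact h1

/-- **Dynamical Mordell-Lang for all but finitely many members of a family over a number field.** -/
theorem result {d : ℕ} (F : Fin (N + 1) → MvPolynomial (Fin (N + 1)) ℂ[X])
    (hF : ∀ i, (F i).IsHomogeneous d) (x : Fin (N + 1) → ℂ[X])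
    (E : IntermediateField ℚ ℂ) [FiniteDimensional ℚ E] (m : ℕ) (hm : 1 ≤ m)
    (b : Fin 3 → Option ℂ) (hb : Function.Injective b) (halg : ∀ i, ∀ z ∈ b i, IsAlgebraic ℚ z) :
    {t : ℂ | t ∈ E ∧ (∀ i, IntegralAt m (b i) t ∨ ∃ z ∈ b i, z ∈ Good F x E) ∧
      ¬ DMLAt (member F t) (start x t)}.Finite := by
  classical
  have h1 : ∀ i, ∃ (σ : ℂ ≃ₐ[E] ℂ) (s : Finset ℂ), (∃ z ∈ b i, z ∈ Good F x E) →
      ∃ z ∈ b i, ∀ t, Near s (σ z) t → DMLAt (member F t) (start x t) := by
    intro i
    by_cases h : ∃ z ∈ b i, z ∈ Good F x E
    · obtain ⟨z, hz, -, σ, hσ⟩ := h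
      obtain ⟨s, hs⟩ := near_good F hF x (σ z) hσ
      exact ⟨σ, s, fun _ => ⟨z, hz, hs⟩⟩
    · exact ⟨AlgEquiv.refl, ∅, fun h' => absurd h' h⟩
  choose σ s hs using h1
  refine (near_line E b hb halg s σ m hm).subset ?_
  rintro t ⟨htE, ht, hbad⟩
  refine ⟨htE, fun i => ?_⟩
  rcases ht i with h | h
  · refine Or.inl ?_
    rcases hbi : b i with _ | z
    · rw [hbi] at h
      exact h
    · rw [hbi] at h
      exact h
  · obtain ⟨z, hz, hz'⟩ := hs i h
    exact Or.inr ⟨z, hz, fun hn => hbad (hz' t hn)⟩

end Pool.Agent.Results.MP_b15c9e_ag.NumberFieldPoints
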