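import Pool.Agent.Y199.DM.One

/-!
# MP_b15c9e_ag: Dynamical Mordell-Lang for almost all members of a family with one preperiodic member

**Families.** Let `F_{t,0}, …, F_{t,N}` be forms of degree `d` in `N + 1` variables whose
coefficients are complex polynomials in `t` (`member F t`), let `x_0, …, x_N` be complex polynomials
in `t` (`start x t`). So `F_t` is a one-parameter family of rational self-maps of `ℙ^N` (for example
of endomorphisms, for example a constant family) and `x(t)` is a curve of starting points.

**Étale preperiodic points.** A point `P` of the cone is called étale preperiodic for a system of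
forms `F` if all iterates `F^n(P)` are different from zero, the point `[P]` of `ℙ^N` is preperiodic
and the determinant of the matrix of the partial derivatives of the `F_i` does not vanish at
`F^n(P)` for `n ≥ n₀` (that is, `[F]` is étale at the points of the cycle).

**Theorem.** Suppose that for one algebraic number `α`, of any degree over `ℚ`, the point `x(α)` is
étale preperiodic for `F_α`. Then there are constants `C` and `s` such that for all `B ≥ 2` and
`v ≤ B`: all but at most `C (log B)^s` of the rational numbers `t` with denominator `v` and with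
numerator at most `B` in absolute value have the following property (`DMLAt`): the orbit of `x(t)`
under `F_t` is defined (no iterate is zero), and for every set `S` of polynomials in `N + 1`
variables (for closed subsets of `ℙ^N`: a set of forms) the set of the `n` such that all members of
`S` vanish at the `n`-th iterate is a finite union of arithmetic progressions.

For `v = 1` these are the integers `t` with `|t| ≤ B`; and all but `C B (log B)^s` of the (more than
`B ^ 2`) rational numbers `t` of height at most `B` have the property. For example let `F` be any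
endomorphism of `ℙ^N` over `ℂ` and let `P ∈ ℙ^N(ℂ)` be any point whose orbit is finite and such that
`F` is étale at the cycle. Then for every rational curve `x(t)` with `x(α) = P` for some algebraic
number `α`, in particular for every line through `P`, suitably parametrized, the
Dynamical Mordell-Lang conjecture holds for all but `C (log B)^s` of the points `x(t)`, `t ∈ ℤ`,
`|t| ≤ B`.

The sister result `CurvesThroughPreperiodicPoints` supposes that `x(α)` is étale preperiodic for
`2 δ + 1` rational numbers `α`; then the exceptional set is finite.

The proof: if the value at `t` of the minimal polynomial of `α` is divisible by a large prime `p` then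
there is an embedding of `ℂ` into the algebraic closure of `ℚ_p` for which all data have good
reduction and `α` is near to `t`; so the orbit of `x(t)` has the reduction of the orbit of `x(α)`, it
is étale at `p`, and `p`-adic interpolation applies. The other `t` are few.
-/

set_option autoImplicit false

open Polynomial Pool.Agent.H936R2 Pool.Agent.Y199.DM Pool.Agent.Y152.BD

namespace Pool.Agent.Results.MP_b15c9e_ag.OnePreperiodicMember

variable {N : ℕ}

/-- The member at `t` of a family of systems of forms. -/
noncomputable def member (F : Fin (N + 1) → MvPolynomial (Fin (N + 1)) ℂ[X]) (t : ℂ) :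
    Fin (N + 1) → MvPolynomial (Fin (N + 1)) ℂ :=
  fun i => MvPolynomial.map (evalRingHom t) (F i)

/-- The starting point at `t`. -/
noncomputable def start (x : Fin (N + 1) → ℂ[X]) (t : ℂ) : Fin (N + 1) → ℂ :=
  fun i => (x i).eval t

/-- **Dynamical Mordell-Lang for almost all members of a family with one preperiodic member.** -/
theorem result {d : ℕ} (F : Fin (N + 1) → MvPolynomial (Fin (N + 1)) ℂ[X])
    (hF : ∀ i, (F i).IsHomogeneous d) (x : Fin (N + 1) → ℂ[X]) (α : ℂ) (hα : IsAlgebraic ℚ α)
    (h : EtalePreperiodic (member F α) (start x α)) :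
    ∃ C s : ℕ, ∀ B v : ℕ, 2 ≤ B → v ≤ B → ∀ T : Finset ℚ,
      (∀ t ∈ T, t.den = v ∧ |t.num| ≤ B ∧ ¬ DMLAt (member F t) (start x t)) →
      (T.card : ℝ) ≤ C * Real.log B ^ s := by
  classical
  -- the minimal polynomial
  obtain ⟨P, hP0, hPα⟩ := (IsFractionRing.isAlgebraic_iff ℤ ℚ ℂ).mpr hα
  obtain ⟨G, hG, -, hGα⟩ := DegLE.exists_irreducible (d := P.natDegree) (τ := α)
    ⟨P, hP0, le_rfl, hPα⟩
  have hGdeg : G.natDegree ≠ 0 := by
    intro h0
    rw [Polynomial.eq_C_of_natDegree_eq_zero h0] at hGα hG
    rw [aeval_C] at hGα
    have h1 : G.coeff 0 = 0 := by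
      have h2 : ((G.coeff 0 : ℤ) : ℂ) = 0 := hGα
      exact_mod_cast h2
    rw [h1, C_0] at hG
    exact not_irreducible_zero hG
  -- the criterion
  obtain ⟨s, hs⟩ := near_core (d := d) (member F) (start x) (fun i κ => (F i).coeff κ) x
    (fun t i κ => by
      rw [member, MvPolynomial.coeff_map]
      rfl) (fun t i => rfl) (by
      refine (Finset.finite_toSet (Finset.univ.biUnion fun i : Fin (N + 1) =>
        (F i).support.image fun κ => (i, κ))).subset ?_
      rintro ⟨i, κ⟩ hq
      rw [Finset.mem_coe, Finset.mem_biUnion]
      exact ⟨i, Finset.mem_univ _, Finset.mem_image.2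
        ⟨κ, MvPolynomial.mem_support_iff.2 hq, rfl⟩⟩)
    (fun t i => (hF i).map _) α h
  obtain ⟨D, hD⟩ := emb_alg_near s α G hG hGα
  obtain ⟨C, r, hC⟩ := card_exceptions_le G hGdeg (D + G.leadingCoeff.natAbs)
  refine ⟨C, r, fun B v hB hv T hT => hC B v hB hv T fun t ht => ?_⟩
  obtain ⟨hden, hnum, hbad⟩ := hT t ht
  -- the embeddings
  have key : ∀ p : ℕ, p.Prime → D < p → ¬ p ∣ t.den → ¬ (p : ℤ) ∣ Nv G t := by
    intro p hp hlt hpden hdvd
    haveI : Fact p.Prime := ⟨hp⟩
    obtain ⟨τ, hτ, hτα⟩ := hD p hlt t hpden hdvd
    apply hbad
    refine hs p τ hτ t ?_ ?_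
    · rw [map_ratCast]
      have := Pool.Agent.TH838.PR.norm_rat_le_one (p := p) t hpden
      rwa [eq_ratCast] at this
    · rw [map_ratCast]
      exact hτα
  refine ⟨hden, hnum, fun h0 => ?_, fun p hp hdvd => ?_⟩
  · obtain ⟨p, hpD, hp⟩ := Nat.exists_infinite_primes (D + t.den + 1)
    refine key p hp (by omega) (fun hdvd => ?_) (by rw [h0]; exact dvd_zero _)
    have := Nat.le_of_dvd t.den_pos hdvd
    omega
  · by_contra hlt
    push Not at hlt
    by_cases hpden : p ∣ t.den
    · -- `p` divides the leading coefficient
      have h1 : (p : ℤ) ∣ G.coeff G.natDegree * t.num ^ G.natDegree := by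
        have h2 : Nv G t = (∑ i ∈ Finset.range G.natDegree,
            G.coeff i * t.num ^ i * (t.den : ℤ) ^ (G.natDegree - i)) +
              G.coeff G.natDegree * t.num ^ G.natDegree := by
          rw [Nv, Finset.sum_range_succ, Nat.sub_self, pow_zero, mul_one]
        have h3 : (p : ℤ) ∣ ∑ i ∈ Finset.range G.natDegree,
            G.coeff i * t.num ^ i * (t.den : ℤ) ^ (G.natDegree - i) := by
          refine Finset.dvd_sum fun i hi => ?_
          rw [Finset.mem_range] at hi
          refine Dvd.dvd.mul_left ?_ _
          exact dvd_pow (Int.natCast_dvd_natCast.2 hpden) (by omega)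
        rw [h2] at hdvd
        exact (Int.dvd_add_right h3).1 hdvd
      have h4 : ¬ (p : ℤ) ∣ t.num := by
        intro h5
        have h6 := t.reduced
        have h7 : p ∣ t.num.natAbs := Int.natCast_dvd.1 h5
        have h8 := Nat.dvd_gcd h7 hpden
        rw [h6] at h8
        exact hp.one_lt.ne' (Nat.dvd_one.1 h8)
      have hpp : Prime (p : ℤ) := Nat.prime_iff_prime_int.1 hp
      have h5 : (p : ℤ) ∣ G.leadingCoeff := by
        rcases hpp.dvd_or_dvd h1 with h6 | h6
        · exact h6
        · exact absurd (hpp.dvd_of_dvd_pow h6) h4
      have h6 := Nat.le_of_dvd (Int.natAbs_pos.2 (leadingCoeff_ne_zero.2 hG.ne_zero))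
        (Int.natCast_dvd.1 h5)
      omega
    · exact key p hp (by omega) hpden hdvd

end Pool.Agent.Results.MP_b15c9e_ag.OnePreperiodicMember
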